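import Pool.Agent.X286.Ab.Pack

/-!
# Copies and homomorphisms; graphs far from triangle-free
-/

set_option autoImplicit false

namespace Pool.Agent.X286.Ab

open Finset

/-- The number of copies of `F` in `G`: subgraphs of `G` isomorphic to `F`. -/
noncomputable def copies {k : ℕ} {V : Type} (F : SimpleGraph (Fin k)) (G : SimpleGraph V) : ℕ :=
  {H : G.Subgraph | Nonempty (F ≃g H.coe)}.ncard

/-- `G` cannot be made triangle-free by deleting fewer than `ε n ^ 2` edges. -/
def Far {V : Type} (ε : ℝ) (G : SimpleGraph V) : Prop :=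
  ∀ D : Set (Sym2 V), D ⊆ G.edgeSet → (D.ncard : ℝ) < ε * (Nat.card V : ℝ) ^ 2 →
    ¬ (G.deleteEdges D).CliqueFree 3

instance finCopy {k : ℕ} {V : Type} [Finite V] (F : SimpleGraph (Fin k)) (G : SimpleGraph V) :
    Finite (SimpleGraph.Copy F G) :=
  Finite.of_injective (fun f : SimpleGraph.Copy F G => (f : Fin k → V)) DFunLike.coe_injective

theorem copies_eq {k : ℕ} {V : Type} (F : SimpleGraph (Fin k)) (G : SimpleGraph V) :
    copies F G = (Set.range (SimpleGraph.Copy.toSubgraph (A := F) (B := G))).ncard := by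
  rw [SimpleGraph.Copy.range_toSubgraph]
  rfl

theorem copies_le {k : ℕ} {V : Type} [Finite V] (F : SimpleGraph (Fin k)) (G : SimpleGraph V) :
    copies F G ≤ hc F G := by
  rw [copies_eq, ← Set.image_univ]
  refine (Set.ncard_image_le Set.finite_univ).trans ?_
  rw [Set.ncard_univ]
  apply Nat.card_le_card_of_injective
    (fun f : SimpleGraph.Copy F G => (⟨f, fun a b h => f.toHom.map_adj h⟩ : Hm F G))
  intro f g h
  exact DFunLike.coe_injective (congrArg Subtype.val h)

theorem noninj_le {k : ℕ} {V : Type} [Finite V] :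
    Nat.card {f : Fin k → V // ¬ Function.Injective f} ≤ k ^ 2 * Nat.card V ^ (k - 1) := by
  classical
  have h1 : ∀ f : {f : Fin k → V // ¬ Function.Injective f}, ∃ p : Fin k × Fin k,
      p.1 ≠ p.2 ∧ f.1 p.1 = f.1 p.2 := by
    rintro ⟨f, hf⟩
    simp only [Function.Injective] at hf
    push Not at hf
    obtain ⟨a, b, h1, h2⟩ := hf
    exact ⟨(a, b), h2, h1⟩
  choose p hp using h1
  have h2 : Nat.card (Σ p : Fin k × Fin k, ({x // x ≠ p.1} → V)) = k ^ 2 * Nat.card V ^ (k - 1) := by
    rw [Nat.card_sigma]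
    have h3 : ∀ p : Fin k × Fin k, Nat.card ({x // x ≠ p.1} → V) = Nat.card V ^ (k - 1) := by
      intro p
      rw [Nat.card_fun]
      congr 1
      rw [Nat.card_eq_fintype_card, Fintype.card_subtype_compl, Fintype.card_subtype_eq,
        Fintype.card_fin]
    rw [sum_congr rfl (fun p _ => h3 p), sum_const, card_univ, Fintype.card_prod, Fintype.card_fin,
      smul_eq_mul]
    ring
  rw [← h2]
  apply Nat.card_le_card_of_injective (fun f => (⟨p f, fun x => f.1 x.1⟩ :
    Σ p : Fin k × Fin k, ({x // x ≠ p.1} → V)))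
  intro f g hfg
  have e1 : p f = p g := congrArg Sigma.fst hfg
  have e2 : ∀ x, x ≠ (p f).1 → f.1 x = g.1 x := by
    have key : ∀ (q r : Fin k × Fin k) (u : {x // x ≠ q.1} → V) (v : {x // x ≠ r.1} → V),
        (⟨q, u⟩ : Σ p : Fin k × Fin k, ({x // x ≠ p.1} → V)) = ⟨r, v⟩ →
        ∀ x (h : x ≠ q.1) (h' : x ≠ r.1), u ⟨x, h⟩ = v ⟨x, h'⟩ := by
      intro q r u v h x h1 h2
      cases h
      rfl
    intro x hx
    exact key _ _ _ _ hfg x hx (by rw [← e1]; exact hx)
  apply Subtype.ext
  funext x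
  by_cases hx : x = (p f).1
  · rw [hx, (hp f).2, e1, (hp g).2]
    rw [← e1]
    exact e2 _ (hp f).1.symm
  · exact e2 x hx

theorem copy_le {k : ℕ} {V : Type} [Finite V] (F : SimpleGraph (Fin k)) (G : SimpleGraph V) :
    Nat.card (SimpleGraph.Copy F G) ≤ k ^ k * copies F G := by
  classical
  have := Fintype.ofFinite (SimpleGraph.Copy F G)
  have h := card_le_mul_card_image (f := SimpleGraph.Copy.toSubgraph (A := F) (B := G))
    (univ : Finset (SimpleGraph.Copy F G)) (k ^ k) ?_
  · rw [Nat.card_eq_fintype_card, ← card_univ]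
    refine h.trans (le_of_eq ?_)
    rw [copies_eq, ← Set.image_univ, ← coe_univ, ← coe_image, Set.ncard_coe_finset]
  · intro H hH
    obtain ⟨f0, _, rfl⟩ := mem_image.1 hH
    have hverts : Nat.card f0.toSubgraph.verts = k := by
      rw [← Nat.card_congr f0.isoToSubgraph.toEquiv]
      simp
    have hmem : ∀ f : SimpleGraph.Copy F G, f.toSubgraph = f0.toSubgraph →
        ∀ i, f i ∈ f0.toSubgraph.verts := by
      intro f hf i
      rw [← hf]
      simp [SimpleGraph.Copy.toSubgraph]
    rw [← Fintype.card_coe, ← Nat.card_eq_fintype_card]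
    have h1 : Nat.card (Fin k → f0.toSubgraph.verts) = k ^ k := by
      rw [Nat.card_fun, hverts]
      simp
    rw [← h1]
    apply Nat.card_le_card_of_injective
      (fun f : {x // x ∈ ({x | x.toSubgraph = f0.toSubgraph} : Finset (SimpleGraph.Copy F G))} =>
        ((fun i => ⟨f.1 i, hmem f.1 (mem_filter.1 f.2).2 i⟩) : Fin k → f0.toSubgraph.verts))
    intro f g hfg
    apply Subtype.ext
    apply DFunLike.coe_injective
    funext i
    have := congrFun hfg i
    exact congrArg Subtype.val this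

theorem hc_le_copies {k : ℕ} {V : Type} [Finite V] (F : SimpleGraph (Fin k)) (G : SimpleGraph V) :
    hc F G ≤ k ^ k * copies F G + k ^ 2 * Nat.card V ^ (k - 1) := by
  classical
  have h1 : hc F G ≤ Nat.card (SimpleGraph.Copy F G ⊕ {f : Fin k → V // ¬ Function.Injective f}) := by
    apply Nat.card_le_card_of_injective (fun f : Hm F G =>
      if h : Function.Injective f.1 then
        Sum.inl (⟨⟨f.1, fun {a b} hab => f.2 a b hab⟩, h⟩ : SimpleGraph.Copy F G)
      else Sum.inr ⟨f.1, h⟩)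
    intro f g hfg
    simp only at hfg
    apply Subtype.ext
    split_ifs at hfg with h1 h2 h2
    · have h3 := Sum.inl_injective hfg
      exact congrArg (fun c : SimpleGraph.Copy F G => (c : Fin k → V)) h3
    · have h3 := Sum.inr_injective hfg
      exact congrArg (fun c : {f : Fin k → V // ¬ Function.Injective f} => c.1) h3
  rw [Nat.card_sum] at h1
  have h2 := copy_le F G
  have h3 := noninj_le (k := k) (V := V)
  omega

/-- the density of a graph with few copies -/
theorem hd_le_copies {k : ℕ} {V : Type} [Finite V] [Nonempty V] (F : SimpleGraph (Fin k))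
    (G : SimpleGraph V) (η : ℝ) (h : (copies F G : ℝ) ≤ η * (Nat.card V : ℝ) ^ k)
    (hn : (k : ℝ) ^ 2 ≤ η * Nat.card V) : hd F G ≤ ((k : ℝ) ^ k + 1) * η := by
  have hV := card_pos_real (V := V)
  have h1 : (hc F G : ℝ) ≤ (k : ℝ) ^ k * copies F G + (k : ℝ) ^ 2 * (Nat.card V : ℝ) ^ (k - 1) := by
    exact_mod_cast hc_le_copies F G
  unfold hd
  rw [div_le_iff₀ (by positivity)]
  have h2 : (k : ℝ) ^ 2 * (Nat.card V : ℝ) ^ (k - 1) ≤ η * (Nat.card V : ℝ) ^ k := by
    rcases Nat.eq_zero_or_pos k with hk | hk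
    · subst hk
      have : 0 ≤ η := by
        by_contra hc
        push Not at hc
        have h3 : (0 : ℝ) ≤ copies F G := Nat.cast_nonneg _
        simp only [pow_zero, mul_one] at h
        linarith
      simpa using this
    · have h3 : (Nat.card V : ℝ) ^ k = Nat.card V * (Nat.card V : ℝ) ^ (k - 1) := by
        rw [← pow_succ']; congr 1; omega
      rw [h3, ← mul_assoc]
      gcongr
  have h3 : (Nat.card (Fin k)) = k := by simp
  rw [h3]
  have h4 : (k : ℝ) ^ k * copies F G ≤ (k : ℝ) ^ k * (η * (Nat.card V : ℝ) ^ k) := by gcongr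
  calc (hc F G : ℝ) ≤ _ := h1
    _ ≤ (k : ℝ) ^ k * (η * (Nat.card V : ℝ) ^ k) + η * (Nat.card V : ℝ) ^ k := add_le_add h4 h2
    _ = _ := by ring

/-- a graph far from triangle-free has many edge-disjoint triangles -/
theorem far_pack {V : Type} [Finite V] (G : SimpleGraph V) (ε : ℝ) (h : Far ε G) :
    Pack G (ε / 6) := by
  classical
  have := Fintype.ofFinite V
  let Q : Finset (Finset V) → Prop := fun T => (∀ t ∈ T, G.IsNClique 3 t) ∧
    ∀ t ∈ T, ∀ t' ∈ T, ∀ a b, a ≠ b → a ∈ t → b ∈ t → a ∈ t' → b ∈ t' → t = t'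
  obtain ⟨T, hT, hmax⟩ : ∃ T, Q T ∧ ∀ T', Q T' → #T' ≤ #T := by
    have hne : ((univ : Finset (Finset (Finset V))).filter Q).Nonempty :=
      ⟨∅, by simp [Q]⟩
    obtain ⟨T, hT, hm⟩ := exists_max_image _ (fun T => #T) hne
    exact ⟨T, (mem_filter.1 hT).2, fun T' hT' => hm T' (mem_filter.2 ⟨mem_univ _, hT'⟩)⟩
  let D : Set (Sym2 V) := {e | e ∈ G.edgeSet ∧ ∃ t ∈ T, e ∈ t.sym2}
  have hD : D.ncard ≤ 6 * #T := by
    have h1 : D ⊆ ((T.biUnion (fun t => t.sym2) : Finset (Sym2 V)) : Set (Sym2 V)) := by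
      rintro e ⟨_, t, ht, he⟩
      rw [mem_coe, mem_biUnion]
      exact ⟨t, ht, he⟩
    calc D.ncard ≤ ((T.biUnion (fun t => t.sym2) : Finset (Sym2 V)) : Set (Sym2 V)).ncard :=
          Set.ncard_le_ncard h1 (Set.toFinite _)
      _ = #(T.biUnion (fun t => t.sym2)) := Set.ncard_coe_finset _
      _ ≤ ∑ t ∈ T, #(t.sym2) := card_biUnion_le
      _ = ∑ _t ∈ T, 6 := by
          apply sum_congr rfl
          intro t ht
          rw [card_sym2, (hT.1 t ht).card_eq]
          rfl
      _ = 6 * #T := by rw [sum_const, smul_eq_mul, mul_comm]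
  have hbig : ε * (Nat.card V : ℝ) ^ 2 ≤ 6 * #T := by
    by_contra hcon
    push Not at hcon
    have h1 : (D.ncard : ℝ) < ε * (Nat.card V : ℝ) ^ 2 := by
      refine lt_of_le_of_lt ?_ hcon
      exact_mod_cast hD
    have h2 := h D (fun e he => he.1) h1
    simp only [SimpleGraph.CliqueFree] at h2
    push Not at h2
    obtain ⟨t0, ht0⟩ := h2
    have hadj : ∀ a b, a ∈ t0 → b ∈ t0 → a ≠ b → G.Adj a b ∧ s(a, b) ∉ D := by
      intro a b ha hb hab
      have := ht0.isClique ha hb hab
      rw [SimpleGraph.deleteEdges_adj] at this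
      exact this
    have hdis : ∀ t ∈ T, ∀ a b, a ≠ b → a ∈ t → b ∈ t → a ∈ t0 → b ∈ t0 → False := by
      intro t ht a b hab ha hb ha0 hb0
      obtain ⟨h3, h4⟩ := hadj a b ha0 hb0 hab
      apply h4
      exact ⟨h3, t, ht, by rw [mk_mem_sym2_iff]; exact ⟨ha, hb⟩⟩
    have hcl : G.IsNClique 3 t0 := by
      rw [SimpleGraph.isNClique_iff]
      exact ⟨fun a ha b hb hab => (hadj a b ha hb hab).1, ht0.card_eq⟩
    have hnot : t0 ∉ T := by
      intro hmem
      have hc := ht0.card_eq
      obtain ⟨a, b, c, hab, _, _, rfl⟩ := card_eq_three.1 hc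
      exact hdis _ hmem a b hab (by simp) (by simp) (by simp) (by simp)
    have hQ : Q (insert t0 T) := by
      refine ⟨?_, ?_⟩
      · intro t ht
        rcases mem_insert.1 ht with rfl | ht
        · exact hcl
        · exact hT.1 t ht
      · intro t ht t' ht' a b hab h1 h2 h3 h4
        rcases mem_insert.1 ht with h5 | h5 <;> rcases mem_insert.1 ht' with h6 | h6
        · rw [h5, h6]
        · rw [h5] at h1 h2
          exact (hdis t' h6 a b hab h3 h4 h1 h2).elim
        · rw [h6] at h3 h4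
          exact (hdis t h5 a b hab h1 h2 h3 h4).elim
        · exact hT.2 t h5 t' h6 a b hab h1 h2 h3 h4
    have := hmax _ hQ
    rw [card_insert_of_notMem hnot] at this
    omega
  have hen : ∀ t : {t // t ∈ T}, ∃ e : Fin 3 → V, Function.Injective e ∧ ∀ i, e i ∈ t.1 := by
    intro t
    have e := t.1.equivFinOfCardEq (hT.1 t.1 t.2).card_eq
    exact ⟨fun i => (e.symm i : V), fun i j h => e.symm.injective (Subtype.ext h),
      fun i => (e.symm i).2⟩
  choose tri htri1 htri2 using hen
  refine ⟨{t // t ∈ T}, inferInstance, tri, ?_, ?_, ?_⟩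
  · intro t i j hij
    exact (hT.1 t.1 t.2).isClique (htri2 t i) (htri2 t j) (fun hc => hij (htri1 t hc))
  · intro t t' i j i' j' hij h1 h2
    apply Subtype.ext
    exact hT.2 t.1 t.2 t'.1 t'.2 (tri t i) (tri t j) (fun hc => hij (htri1 t hc)) (htri2 t i)
      (htri2 t j) (by rw [h1]; exact htri2 t' i') (by rw [h2]; exact htri2 t' j')
  · have hc : (Nat.card {t // t ∈ T} : ℝ) = #T := by
      rw [Nat.card_eq_fintype_card, Fintype.card_coe]
    rw [hc]
    linarith

end Pool.Agent.X286.Ab
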