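import Mathlib

/-!
# Homomorphism densities
-/

set_option autoImplicit false

namespace Pool.Agent.X286.Ab

open Finset

/-- homomorphisms -/
def Hm {α V : Type} (F : SimpleGraph α) (G : SimpleGraph V) : Type :=
  {f : α → V // ∀ a b, F.Adj a b → G.Adj (f a) (f b)}

instance {α V : Type} [Finite α] [Finite V] (F : SimpleGraph α) (G : SimpleGraph V) :
    Finite (Hm F G) := by
  unfold Hm
  infer_instance

/-- the number of homomorphisms -/
noncomputable def hc {α V : Type} (F : SimpleGraph α) (G : SimpleGraph V) : ℕ := Nat.card (Hm F G)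

/-- the homomorphism density -/
noncomputable def hd {α V : Type} (F : SimpleGraph α) (G : SimpleGraph V) : ℝ :=
  hc F G / (Nat.card V : ℝ) ^ Nat.card α

theorem hc_le {α V : Type} [Finite α] [Finite V] (F : SimpleGraph α) (G : SimpleGraph V) :
    hc F G ≤ Nat.card V ^ Nat.card α := by
  rw [← Nat.card_fun]
  exact Nat.card_le_card_of_injective (fun f : Hm F G => f.1) Subtype.val_injective

theorem hd_nonneg {α V : Type} (F : SimpleGraph α) (G : SimpleGraph V) : 0 ≤ hd F G := by
  unfold hd
  positivity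

theorem card_pos_real {V : Type} [Finite V] [Nonempty V] : (0 : ℝ) < Nat.card V := by
  exact_mod_cast Nat.card_pos

theorem hd_le_one {α V : Type} [Finite α] [Finite V] (F : SimpleGraph α) (G : SimpleGraph V) :
    hd F G ≤ 1 := by
  unfold hd
  apply div_le_one_of_le₀
  · exact_mod_cast hc_le F G
  · positivity

/-- the tensor product -/
def tp {V W : Type} (G : SimpleGraph V) (G' : SimpleGraph W) : SimpleGraph (V × W) where
  Adj x y := G.Adj x.1 y.1 ∧ G'.Adj x.2 y.2
  symm := by
    constructor
    rintro x y ⟨h1, h2⟩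
    exact ⟨h1.symm, h2.symm⟩
  loopless := by
    constructor
    rintro x ⟨h1, _⟩
    exact h1.ne rfl

theorem hc_tp {α V W : Type} (F : SimpleGraph α) (G : SimpleGraph V) (G' : SimpleGraph W) :
    hc F (tp G G') = hc F G * hc F G' := by
  unfold hc
  rw [← Nat.card_prod]
  apply Nat.card_congr
  exact
    { toFun := fun f => (⟨fun a => (f.1 a).1, fun a b h => (f.2 a b h).1⟩,
        ⟨fun a => (f.1 a).2, fun a b h => (f.2 a b h).2⟩)
      invFun := fun g => ⟨fun a => (g.1.1 a, g.2.1 a), fun a b h => ⟨g.1.2 a b h, g.2.2 a b h⟩⟩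
      left_inv := fun f => rfl
      right_inv := fun g => rfl }

theorem hd_tp {α V W : Type} (F : SimpleGraph α) (G : SimpleGraph V) (G' : SimpleGraph W) :
    hd F (tp G G') = hd F G * hd F G' := by
  unfold hd
  rw [hc_tp, Nat.card_prod]
  push_cast
  rw [mul_pow, div_mul_div_comm]

/-- the blow-up -/
def bl {V : Type} (G : SimpleGraph V) (W : Type) : SimpleGraph (V × W) where
  Adj x y := G.Adj x.1 y.1
  symm := by
    constructor
    rintro x y h
    exact G.adj_symm h
  loopless := by
    constructor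
    rintro x h
    exact G.ne_of_adj h rfl

theorem hc_bl {α V W : Type} (F : SimpleGraph α) (G : SimpleGraph V) [Finite α] :
    hc F (bl G W) = hc F G * Nat.card W ^ Nat.card α := by
  unfold hc
  rw [← Nat.card_fun, ← Nat.card_prod]
  apply Nat.card_congr
  exact
    { toFun := fun f => (⟨fun a => (f.1 a).1, fun a b h => f.2 a b h⟩, fun a => (f.1 a).2)
      invFun := fun g => ⟨fun a => (g.1.1 a, g.2 a), fun a b h => g.1.2 a b h⟩
      left_inv := fun f => rfl
      right_inv := fun g => rfl }

theorem hd_bl {α V W : Type} [Finite α] [Finite W] [Nonempty W] (F : SimpleGraph α)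
    (G : SimpleGraph V) : hd F (bl G W) = hd F G := by
  unfold hd
  rw [hc_bl, Nat.card_prod]
  push_cast
  rw [mul_pow, mul_div_mul_right _ _ (by have := card_pos_real (V := W); positivity)]

/-- invariance -/
theorem hc_equiv {α β V : Type} (F : SimpleGraph α) (F' : SimpleGraph β) (e : α ≃ β)
    (h : ∀ a b, F.Adj a b ↔ F'.Adj (e a) (e b)) (G : SimpleGraph V) : hc F G = hc F' G := by
  unfold hc
  apply Nat.card_congr
  exact
    { toFun := fun f => ⟨fun b => f.1 (e.symm b), fun a b hab => f.2 _ _ ((h _ _).2 (by simpa using hab))⟩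
      invFun := fun g => ⟨fun a => g.1 (e a), fun a b hab => g.2 _ _ ((h _ _).1 hab)⟩
      left_inv := fun f => by
        apply Subtype.ext
        funext a
        simp
      right_inv := fun g => by
        apply Subtype.ext
        funext a
        simp }

theorem hd_equiv {α β V : Type} (F : SimpleGraph α) (F' : SimpleGraph β) (e : α ≃ β)
    (h : ∀ a b, F.Adj a b ↔ F'.Adj (e a) (e b)) (G : SimpleGraph V) : hd F G = hd F' G := by
  unfold hd
  rw [hc_equiv F F' e h, Nat.card_congr e]

/-- subgraphs have larger densities -/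
theorem hd_mono {α β V : Type} [Finite α] [Finite V] [Nonempty V] (F : SimpleGraph α)
    (F' : SimpleGraph β) (ι : β → α) (hι : Function.Injective ι)
    (h : ∀ a b, F'.Adj a b → F.Adj (ι a) (ι b)) (G : SimpleGraph V) : hd F G ≤ hd F' G := by
  classical
  have : Finite β := Finite.of_injective ι hι
  have h1 : hc F G ≤ hc F' G * Nat.card V ^ Nat.card {a // a ∉ Set.range ι} := by
    unfold hc
    rw [← Nat.card_fun, ← Nat.card_prod]
    apply Nat.card_le_card_of_injective (fun f : Hm F G =>
      ((⟨fun b => f.1 (ι b), fun a b hab => f.2 _ _ (h _ _ hab)⟩,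
        fun a => f.1 a.1) : Hm F' G × ({a // a ∉ Set.range ι} → V)))
    intro f g hfg
    have h1 := congrArg Prod.fst hfg
    have h2 := congrArg Prod.snd hfg
    apply Subtype.ext
    funext a
    by_cases ha : a ∈ Set.range ι
    · obtain ⟨b, rfl⟩ := ha
      exact congrFun (congrArg Subtype.val h1) b
    · exact congrFun h2 ⟨a, ha⟩
  have h2 : Nat.card α = Nat.card β + Nat.card {a // a ∉ Set.range ι} := by
    have e := Equiv.sumCompl (fun a => a ∈ Set.range ι)
    rw [← Nat.card_congr e, Nat.card_sum]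
    congr 1
    exact (Nat.card_congr (Equiv.ofInjective ι hι)).symm
  unfold hd
  rw [h2, pow_add]
  have hV := card_pos_real (V := V)
  rw [div_le_div_iff₀ (by positivity) (by positivity)]
  have h3 : (hc F G : ℝ) ≤ hc F' G * (Nat.card V : ℝ) ^ Nat.card {a // a ∉ Set.range ι} := by
    exact_mod_cast h1
  calc (hc F G : ℝ) * (Nat.card V : ℝ) ^ Nat.card β
      ≤ (hc F' G * (Nat.card V : ℝ) ^ Nat.card {a // a ∉ Set.range ι}) *
        (Nat.card V : ℝ) ^ Nat.card β := by gcongr
    _ = _ := by ring

/-- the single edge -/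
def K2 : SimpleGraph Bool := ⊤

/-- a matching -/
def mt (M : ℕ) : SimpleGraph (Fin M × Bool) where
  Adj x y := x.1 = y.1 ∧ x.2 ≠ y.2
  symm := by
    constructor
    rintro x y ⟨h1, h2⟩
    exact ⟨h1.symm, h2.symm⟩
  loopless := by
    constructor
    rintro x ⟨_, h1⟩
    exact h1 rfl

theorem hd_mt {V : Type} [Finite V] (M : ℕ) (G : SimpleGraph V) : hd (mt M) G = hd K2 G ^ M := by
  have h1 : hc (mt M) G = hc K2 G ^ M := by
    have e0 : hc K2 G ^ M = Nat.card (Fin M → Hm K2 G) := by
      rw [Nat.card_fun]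
      simp [hc]
    rw [e0]
    unfold hc
    apply Nat.card_congr
    exact
      { toFun := fun f i => ⟨fun x => f.1 (i, x), fun x y h => f.2 _ _ ⟨rfl, h⟩⟩
        invFun := fun g => ⟨fun p => (g p.1).1 p.2, fun x y h => by
          obtain ⟨i, x⟩ := x
          obtain ⟨j, y⟩ := y
          obtain ⟨h1, h2⟩ := h
          simp only at h1 h2
          subst h1
          exact (g i).2 _ _ h2⟩
        left_inv := fun f => rfl
        right_inv := fun g => rfl }
  unfold hd
  rw [h1, Nat.card_prod]
  push_cast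
  rw [div_pow, ← pow_mul]
  simp [mul_comm]

/-- the number of homomorphisms as a sum, for a graph without edges inside `J` -/
theorem hc_sum {A J V : Type} [Finite A] [Fintype J] [Finite V] (Γ : SimpleGraph (A ⊕ J))
    (hJ : ∀ i j, ¬ Γ.Adj (Sum.inr i) (Sum.inr j)) (G : SimpleGraph V)
    [Fintype (Hm (Γ.comap (Sum.inl : A → A ⊕ J)) G)] :
    hc Γ G = ∑ φ : Hm (Γ.comap (Sum.inl : A → A ⊕ J)) G,
      ∏ j : J, Nat.card {v : V // ∀ a, Γ.Adj (Sum.inl a) (Sum.inr j) → G.Adj (φ.1 a) v} := by
  have h1 : ∀ φ : Hm (Γ.comap (Sum.inl : A → A ⊕ J)) G,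
      ∏ j : J, Nat.card {v : V // ∀ a, Γ.Adj (Sum.inl a) (Sum.inr j) → G.Adj (φ.1 a) v} =
      Nat.card (∀ j : J, {v : V // ∀ a, Γ.Adj (Sum.inl a) (Sum.inr j) → G.Adj (φ.1 a) v}) :=
    fun φ => Nat.card_pi.symm
  rw [sum_congr rfl (fun φ _ => h1 φ), ← Nat.card_sigma]
  unfold hc
  apply Nat.card_congr
  exact
    { toFun := fun f => ⟨⟨fun a => f.1 (Sum.inl a), fun a b h => f.2 _ _ h⟩,
        fun j => ⟨f.1 (Sum.inr j), fun a h => f.2 _ _ h⟩⟩
      invFun := fun g => ⟨Sum.elim g.1.1 (fun j => (g.2 j).1), by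
        rintro (a | i) (b | j) h
        · exact g.1.2 _ _ h
        · exact (g.2 j).2 a h
        · exact ((g.2 i).2 b h.symm).symm
        · exact (hJ i j h).elim⟩
      left_inv := fun f => by
        apply Subtype.ext
        funext x
        rcases x with a | j <;> rfl
      right_inv := fun g => rfl }

end Pool.Agent.X286.Ab
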