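import Pool.Agent.X286.Ab.Twin

/-!
# Edge-disjoint triangles in products
-/

set_option autoImplicit false

namespace Pool.Agent.X286.Ab

open Finset

/-- at least `θ n ^ 2` edge-disjoint triangles -/
def Pack {V : Type} (G : SimpleGraph V) (θ : ℝ) : Prop :=
  ∃ (I : Type) (_ : Finite I) (tri : I → Fin 3 → V),
    (∀ a i j, i ≠ j → G.Adj (tri a i) (tri a j)) ∧
    (∀ a b i j i' j', i ≠ j → tri a i = tri b i' → tri a j = tri b j' → a = b) ∧
    θ * (Nat.card V : ℝ) ^ 2 ≤ Nat.card I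

theorem pack_tp {V W : Type} {G : SimpleGraph V} {G' : SimpleGraph W} {θ θ' : ℝ}
    (_hθ : 0 ≤ θ) (hθ' : 0 ≤ θ') (h : Pack G θ) (h' : Pack G' θ') : Pack (tp G G') (θ * θ') := by
  obtain ⟨I, _, tri, h1, h2, h3⟩ := h
  obtain ⟨I', _, tri', h1', h2', h3'⟩ := h'
  refine ⟨I × I', inferInstance, fun a i => (tri a.1 i, tri' a.2 i), ?_, ?_, ?_⟩
  · intro a i j hij
    exact ⟨h1 _ _ _ hij, h1' _ _ _ hij⟩
  · rintro ⟨a, a'⟩ ⟨b, b'⟩ i j i' j' hij e1 e2
    simp only [Prod.mk.injEq] at e1 e2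
    rw [h2 a b i j i' j' hij e1.1 e2.1, h2' a' b' i j i' j' hij e1.2 e2.2]
  · rw [Nat.card_prod, Nat.card_prod]
    push_cast
    calc θ * θ' * ((Nat.card V : ℝ) * Nat.card W) ^ 2 =
        (θ * (Nat.card V : ℝ) ^ 2) * (θ' * (Nat.card W : ℝ) ^ 2) := by ring
      _ ≤ _ := by gcongr

theorem tri_inj {V I : Type} {G : SimpleGraph V} {tri : I → Fin 3 → V}
    (h1 : ∀ a i j, i ≠ j → G.Adj (tri a i) (tri a j)) {a : I} {i j : Fin 3}
    (h : tri a i = tri a j) : i = j := by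
  by_contra hij
  exact (h1 a i j hij).ne h

theorem pack_bl {V : Type} {G : SimpleGraph V} {θ : ℝ} (h : Pack G θ)
    (N : ℕ) [NeZero N] : Pack (bl G (ZMod N)) θ := by
  obtain ⟨I, _, tri, h1, h2, h3⟩ := h
  refine ⟨I × (ZMod N × ZMod N), inferInstance,
    fun a i => (tri a.1 i, ![a.2.1, a.2.2, a.2.1 + a.2.2] i), ?_, ?_, ?_⟩
  · intro a i j hij
    exact h1 _ _ _ hij
  · rintro ⟨a, x, y⟩ ⟨b, x', y'⟩ i j i' j' hij e1 e2
    simp only [Prod.mk.injEq] at e1 e2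
    have hab := h2 a b i j i' j' hij e1.1 e2.1
    subst hab
    have hi := tri_inj h1 e1.1
    have hj := tri_inj h1 e2.1
    subst hi hj
    have e1' := e1.2
    have e2' := e2.2
    have key : x = x' ∧ y = y' := by
      fin_cases i <;> fin_cases j <;> simp at hij e1' e2' <;> simp_all
    rw [key.1, key.2]
  · rw [Nat.card_prod, Nat.card_prod, Nat.card_prod]
    push_cast
    have hN : (0 : ℝ) ≤ (Nat.card (ZMod N) : ℝ) := Nat.cast_nonneg _
    calc θ * ((Nat.card V : ℝ) * Nat.card (ZMod N)) ^ 2 =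
        (θ * (Nat.card V : ℝ) ^ 2) * (Nat.card (ZMod N) : ℝ) ^ 2 := by ring
      _ ≤ (Nat.card I : ℝ) * (Nat.card (ZMod N) : ℝ) ^ 2 := by gcongr
      _ = _ := by ring

theorem pack_six {V : Type} [Finite V] [Nonempty V] {G : SimpleGraph V} {θ : ℝ}
    (h : Pack G θ) : 6 * θ ≤ 1 := by
  obtain ⟨I, _, tri, h1, h2, h3⟩ := h
  have h4 : Nat.card (I × {p : Fin 3 × Fin 3 // p.1 ≠ p.2}) ≤ Nat.card (V × V) := by
    apply Nat.card_le_card_of_injective (fun x => (tri x.1 x.2.1.1, tri x.1 x.2.1.2))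
    rintro ⟨a, ⟨i, j⟩, hij⟩ ⟨b, ⟨i', j'⟩, hij'⟩ h
    simp only [Prod.mk.injEq] at h
    have hab := h2 a b i j i' j' hij h.1 h.2
    subst hab
    have hi := tri_inj h1 h.1
    have hj := tri_inj h1 h.2
    subst hi hj
    rfl
  rw [Nat.card_prod, Nat.card_prod] at h4
  have h5 : Nat.card {p : Fin 3 × Fin 3 // p.1 ≠ p.2} = 6 := by
    rw [Nat.card_eq_fintype_card]
    decide
  rw [h5] at h4
  have h6 : (Nat.card I : ℝ) * 6 ≤ (Nat.card V : ℝ) * Nat.card V := by exact_mod_cast h4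
  have hV := card_pos_real (V := V)
  have h7 : 6 * θ * (Nat.card V : ℝ) ^ 2 ≤ 1 * (Nat.card V : ℝ) ^ 2 := by nlinarith
  exact le_of_mul_le_mul_right h7 (by positivity)

theorem pack_K3 : Pack (⊤ : SimpleGraph (Fin 3)) (1 / 9) := by
  refine ⟨Unit, inferInstance, fun _ i => i, ?_, ?_, ?_⟩
  · intro a i j hij
    exact hij
  · intro a b i j i' j' _ _ _
    rfl
  · simp
    norm_num

theorem hc_K2_K3 : hc K2 (⊤ : SimpleGraph (Fin 3)) = 6 := by
  unfold hc Hm K2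
  rw [Nat.card_eq_fintype_card]
  decide

theorem hd_K2_K3 : hd K2 (⊤ : SimpleGraph (Fin 3)) = 2 / 3 := by
  unfold hd
  rw [hc_K2_K3]
  simp
  norm_num

/-- tensor powers -/
theorem pow_graph {V : Type} [Finite V] [Nonempty V] {G : SimpleGraph V} {θ : ℝ} (hθ : 0 ≤ θ)
    (h : Pack G θ) (a : ℕ) : ∃ (W : Type) (_ : Finite W) (_ : Nonempty W) (G' : SimpleGraph W),
      Pack G' (θ ^ (a + 1)) ∧ ∀ (α : Type) (F : SimpleGraph α), hd F G' = hd F G ^ (a + 1) := by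
  induction a with
  | zero =>
    refine ⟨V, inferInstance, inferInstance, G, by simpa using h, fun α F => by simp⟩
  | succ a ih =>
    obtain ⟨W, _, _, G', h1, h2⟩ := ih
    refine ⟨W × V, inferInstance, inferInstance, tp G' G, ?_, ?_⟩
    · rw [pow_succ]
      exact pack_tp (by positivity) hθ h1 h
    · intro α F
      rw [hd_tp, h2, ← pow_succ]

theorem balance {s t : ℝ} (hs : 0 < s) (hs1 : s < 1) (ht : 0 < t) (ht1 : t < 1) :
    ∃ a b : ℕ, s ^ (2 * (a + 1)) ≤ t ^ (b + 1) ∧ t ^ (2 * (b + 1)) ≤ s ^ (a + 1) := by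
  classical
  obtain ⟨b, hb⟩ := exists_pow_lt_of_lt_one hs ht1
  have hb' : t ^ (b + 1) < s := lt_of_le_of_lt (pow_le_pow_of_le_one ht.le ht1.le (by omega)) hb
  have hex : ∃ A : ℕ, s ^ A ≤ t ^ (b + 1) := by
    obtain ⟨A, hA⟩ := exists_pow_lt_of_lt_one (show 0 < t ^ (b + 1) by positivity) hs1
    exact ⟨A, hA.le⟩
  obtain ⟨A, hA⟩ : ∃ A, A = Nat.find hex := ⟨_, rfl⟩
  have hA1 : s ^ A ≤ t ^ (b + 1) := by rw [hA]; exact Nat.find_spec hex
  have hA0 : A ≠ 0 := by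
    intro h0
    rw [h0, pow_zero] at hA1
    have : t ^ (b + 1) < 1 := pow_lt_one₀ ht.le ht1 (by omega)
    linarith
  obtain ⟨a, rfl⟩ : ∃ a, A = a + 1 := ⟨A - 1, by omega⟩
  have hA2 : t ^ (b + 1) < s ^ a := by
    have := Nat.find_min hex (m := a) (by omega)
    exact not_le.1 this
  refine ⟨a, b, ?_, ?_⟩
  · refine le_trans ?_ hA1
    exact pow_le_pow_of_le_one hs.le hs1.le (by omega)
  · calc t ^ (2 * (b + 1)) = t ^ (b + 1) * t ^ (b + 1) := by rw [two_mul, pow_add]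
      _ ≤ s ^ a * s := by gcongr
      _ = s ^ (a + 1) := (pow_succ _ _).symm

/-- graphs with many edge-disjoint triangles and few copies of `F` -/
def Bad {k : ℕ} (F : SimpleGraph (Fin k)) : Prop :=
  ∀ c : ℕ, ∃ (V : Type) (_ : Finite V) (_ : Nonempty V) (G : SimpleGraph V) (θ : ℝ),
    0 < θ ∧ θ < 1 ∧ Pack G θ ∧ hd F G ≤ θ ^ c

/-- one graph for finitely many bad graphs -/
theorem finite_bad (L : Finset (Σ k : ℕ, SimpleGraph (Fin k))) (hL : ∀ F ∈ L, Bad F.2) (c : ℕ) :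
    ∃ (V : Type) (_ : Finite V) (_ : Nonempty V) (G : SimpleGraph V) (θ : ℝ),
      0 < θ ∧ θ < 1 ∧ Pack G θ ∧ ∀ F ∈ L, hd F.2 G ≤ θ ^ c := by
  classical
  induction L using Finset.induction_on generalizing c with
  | empty =>
    exact ⟨Fin 3, inferInstance, inferInstance, ⊤, 1 / 9, by norm_num, by norm_num, pack_K3,
      fun F hF => absurd hF (notMem_empty _)⟩
  | insert F L hFL ih =>
    obtain ⟨V, _, _, G, s, hs0, hs1, hP, hG⟩ := ih (fun F' hF' => hL F' (mem_insert_of_mem hF')) (3 * c)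
    obtain ⟨W, _, _, H, t, ht0, ht1, hQ, hH⟩ := hL F (mem_insert_self _ _) (3 * c)
    obtain ⟨a, b, h1, h2⟩ := balance hs0 hs1 ht0 ht1
    obtain ⟨V', _, _, G', hP', hG'⟩ := pow_graph hs0.le hP a
    obtain ⟨W', _, _, H', hQ', hH'⟩ := pow_graph ht0.le hQ b
    have hsa1 : s ^ (a + 1) < 1 := pow_lt_one₀ hs0.le hs1 (by omega)
    have htb1 : t ^ (b + 1) < 1 := pow_lt_one₀ ht0.le ht1 (by omega)
    refine ⟨V' × W', inferInstance, inferInstance, tp G' H', s ^ (a + 1) * t ^ (b + 1),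
      by positivity, by nlinarith [pow_pos hs0 (a + 1), pow_pos ht0 (b + 1)],
      pack_tp (by positivity) (by positivity) hP' hQ', ?_⟩
    intro F' hF'
    rw [hd_tp, hG', hH']
    rcases mem_insert.1 hF' with rfl | hF'
    · calc hd F'.2 G ^ (a + 1) * hd F'.2 H ^ (b + 1) ≤ 1 * (t ^ (3 * c)) ^ (b + 1) :=
            mul_le_mul (pow_le_one₀ (hd_nonneg F'.2 G) (hd_le_one F'.2 G))
              (pow_le_pow_left₀ (hd_nonneg F'.2 H) hH _) (pow_nonneg (hd_nonneg F'.2 H) _)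
              zero_le_one
        _ = (t ^ (2 * (b + 1))) ^ c * (t ^ (b + 1)) ^ c := by
            rw [one_mul, ← pow_mul, ← pow_mul, ← pow_mul, ← pow_add]; congr 1; ring
        _ ≤ (s ^ (a + 1)) ^ c * (t ^ (b + 1)) ^ c := by gcongr
        _ = _ := (mul_pow _ _ _).symm
    · calc hd F'.2 G ^ (a + 1) * hd F'.2 H ^ (b + 1) ≤ (s ^ (3 * c)) ^ (a + 1) * 1 :=
            mul_le_mul (pow_le_pow_left₀ (hd_nonneg F'.2 G) (hG F' hF') _)
              (pow_le_one₀ (hd_nonneg F'.2 H) (hd_le_one F'.2 H))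
              (pow_nonneg (hd_nonneg F'.2 H) _) (by positivity)
        _ = (s ^ (a + 1)) ^ c * (s ^ (2 * (a + 1))) ^ c := by
            rw [mul_one, ← pow_mul, ← pow_mul, ← pow_mul, ← pow_add]; congr 1; ring
        _ ≤ (s ^ (a + 1)) ^ c * (t ^ (b + 1)) ^ c := by gcongr
        _ = _ := (mul_pow _ _ _).symm

theorem Bad.pos {k : ℕ} {F : SimpleGraph (Fin k)} (h : Bad F) : 1 ≤ k := by
  by_contra hk
  have hk0 : k = 0 := by omega
  subst hk0
  obtain ⟨V, _, _, G, θ, h0, h1, _, h2⟩ := h 1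
  have h3 : hd F G = 1 := by
    unfold hd hc
    have : Nat.card (Hm F G) = 1 := by
      rw [Nat.card_eq_one_iff_unique]
      constructor
      · constructor
        intro f g
        apply Subtype.ext
        funext i
        exact i.elim0
      · exact ⟨⟨fun i => i.elim0, fun i => i.elim0⟩⟩
    rw [this]
    simp
  rw [h3, pow_one] at h2
  linarith

/-- reduction of a bad graph without a large matching -/
theorem Bad.reduce {k : ℕ} {F : SimpleGraph (Fin k)} (h : Bad F) {k' : ℕ}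
    {F' : SimpleGraph (Fin k')} (h' : ∀ (V : Type) [Finite V] [Nonempty V] (G : SimpleGraph V),
      hd F' G ^ k ≤ hd F G) : Bad F' := by
  intro c
  obtain ⟨V, _, _, G, θ, h0, h1, hP, h2⟩ := h (c * k)
  refine ⟨V, inferInstance, inferInstance, G, θ, h0, h1, hP, ?_⟩
  have h3 := (h' V G).trans h2
  rw [pow_mul] at h3
  exact le_of_pow_le_pow_left₀ (by have := h.pos; omega) (by positivity) h3

/-- **one graph for all bad graphs of a family** -/
theorem all_bad (𝓕 : Set (Σ k : ℕ, SimpleGraph (Fin k))) (h𝓕 : ∀ F ∈ 𝓕, Bad F.2) (c : ℕ) :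
    ∃ (V : Type) (_ : Finite V) (_ : Nonempty V) (G : SimpleGraph V) (θ : ℝ),
      0 < θ ∧ θ < 1 ∧ Pack G θ ∧ ∀ F ∈ 𝓕, hd F.2 G ≤ θ ^ c := by
  classical
  obtain ⟨M, hM⟩ : ∃ M, M = 11 * c := ⟨_, rfl⟩
  obtain ⟨K, hK⟩ : ∃ K, K = 2 * M + 2 ^ (2 * M) := ⟨_, rfl⟩
  obtain ⟨L, hL⟩ : ∃ L : Finset (Σ k : ℕ, SimpleGraph (Fin k)),
      ∀ F : Σ k : ℕ, SimpleGraph (Fin k), F ∈ L ↔ F.1 ≤ K ∧ Bad F.2 := by
    refine ⟨((Finset.range (K + 1)).sigma (fun k => (univ : Finset (SimpleGraph (Fin k))))).filter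
      (fun F => Bad F.2), ?_⟩
    intro F
    rw [mem_filter, mem_sigma, Finset.mem_range]
    simp [Nat.lt_succ_iff]
  obtain ⟨V, _, _, G, s, hs0, hs1, hP, hG⟩ := finite_bad L (fun F hF => ((hL F).1 hF).2) (4 * c)
  have hs6 := pack_six hP
  -- the power of the triangle
  have hex : ∃ A : ℕ, (1 / 9 : ℝ) ^ A ≤ s := by
    obtain ⟨A, hA⟩ := exists_pow_lt_of_lt_one hs0 (show (1 / 9 : ℝ) < 1 by norm_num)
    exact ⟨A, hA.le⟩
  obtain ⟨A, hA⟩ : ∃ A, A = Nat.find hex := ⟨_, rfl⟩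
  have hA1 : (1 / 9 : ℝ) ^ A ≤ s := by rw [hA]; exact Nat.find_spec hex
  have hA0 : A ≠ 0 := by
    intro h0
    rw [h0, pow_zero] at hA1
    linarith
  obtain ⟨a, rfl⟩ : ∃ a, A = a + 1 := ⟨A - 1, by omega⟩
  have hA2 : s < (1 / 9 : ℝ) ^ a := by
    have := Nat.find_min hex (m := a) (by omega)
    exact not_le.1 this
  obtain ⟨W, _, _, H, hQ, hH⟩ := pow_graph (show (0 : ℝ) ≤ 1 / 9 by norm_num) pack_K3 a
  obtain ⟨t, ht⟩ : ∃ t : ℝ, t = (1 / 9 : ℝ) ^ (a + 1) := ⟨_, rfl⟩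
  have ht0 : 0 < t := by rw [ht]; positivity
  have ht1 : t < 1 := by rw [ht]; exact pow_lt_one₀ (by norm_num) (by norm_num) (by omega)
  rw [← ht] at hQ hA1
  have hts : s / 9 < t := by
    rw [ht, pow_succ]
    linarith
  refine ⟨V × W, inferInstance, inferInstance, tp G H, s * t, by positivity, by nlinarith,
    pack_tp hs0.le ht0.le hP hQ, ?_⟩
  -- the edge density
  have hK2 : hd K2 (tp G H) ^ 11 ≤ s * t := by
    rw [hd_tp, hH, hd_K2_K3]
    calc (hd K2 G * (2 / 3) ^ (a + 1)) ^ 11 ≤ (1 * (2 / 3 : ℝ) ^ (a + 1)) ^ 11 := by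
          gcongr
          · exact mul_nonneg (hd_nonneg _ _) (by positivity)
          · exact hd_le_one _ _
      _ = ((2 / 3 : ℝ) ^ 11) ^ (a + 1) := by rw [one_mul, ← pow_mul, ← pow_mul, mul_comm]
      _ ≤ ((1 / 9 : ℝ) * (1 / 9)) ^ (a + 1) := by
          gcongr
          norm_num
      _ = t * t := by rw [mul_pow, ← ht]
      _ ≤ s * t := by gcongr
  intro F hF
  have hbad := h𝓕 F hF
  rcases matching F.2 M with ⟨μ, hμ, hadj⟩ | ⟨S, hS, hind⟩
  · calc hd F.2 (tp G H) ≤ hd (mt M) (tp G H) := hd_mono F.2 (mt M) μ hμ hadj _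
      _ = (hd K2 (tp G H) ^ 11) ^ c := by rw [hd_mt, hM, pow_mul]
      _ ≤ (s * t) ^ c := by
          gcongr
          exact pow_nonneg (hd_nonneg _ _) _
  · obtain ⟨k', F', hk', hF'⟩ := twin hbad.pos F.2 S hind
    have hbad' : Bad F' := hbad.reduce (fun V _ _ G => (hF' V G).2)
    have hmem : (⟨k', F'⟩ : Σ k : ℕ, SimpleGraph (Fin k)) ∈ L := by
      rw [hL]
      refine ⟨?_, hbad'⟩
      refine hk'.trans ?_
      rw [hK]
      have : 2 ^ #S ≤ 2 ^ (2 * M) := Nat.pow_le_pow_right (by norm_num) hS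
      omega
    have h1 := hG _ hmem
    simp only at h1
    have hs4 : s ^ 4 ≤ s * t := by
      have h2 : s ≤ 1 / 6 := by linarith
      have h3 : s ^ 3 ≤ t := by
        have h4 : s ^ 3 = s * s ^ 2 := by ring
        have h5 : s ^ 2 ≤ 1 / 9 := by nlinarith
        nlinarith
      calc s ^ 4 = s * s ^ 3 := by ring
        _ ≤ s * t := by gcongr
    calc hd F.2 (tp G H) ≤ hd F' (tp G H) := (hF' (V × W) (tp G H)).1
      _ = hd F' G * hd F' H := hd_tp _ _ _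
      _ ≤ s ^ (4 * c) * 1 := by
          gcongr
          · exact hd_nonneg _ _
          · exact hd_le_one _ _
      _ = (s ^ 4) ^ c := by rw [mul_one, pow_mul]
      _ ≤ (s * t) ^ c := by gcongr

end Pool.Agent.X286.Ab
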