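import Pool.Agent.X286.Ab.Hd

/-!
# Twin reduction
-/

set_option autoImplicit false

namespace Pool.Agent.X286.Ab

open Finset

/-- the graph on `A ⊕ J` with prescribed neighbourhoods of the elements of `J` -/
def jg {A J : Type} (B : SimpleGraph A) (N : J → Set A) : SimpleGraph (A ⊕ J) where
  Adj x y :=
    match x, y with
    | Sum.inl a, Sum.inl b => B.Adj a b
    | Sum.inl a, Sum.inr j => a ∈ N j
    | Sum.inr j, Sum.inl a => a ∈ N j
    | Sum.inr _, Sum.inr _ => False
  symm := by
    constructor
    rintro (a | i) (b | j) h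
    · exact B.adj_symm h
    · exact h
    · exact h
    · exact h
  loopless := by
    constructor
    rintro (a | i) h
    · exact B.ne_of_adj h rfl
    · exact h

/-- the density of the common neighbourhood -/
noncomputable def nb {A V : Type} (G : SimpleGraph V) (φ : A → V) (τ : Set A) : ℝ :=
  (Nat.card {v : V // ∀ a, a ∈ τ → G.Adj (φ a) v} : ℝ) / Nat.card V

theorem nb_nonneg {A V : Type} (G : SimpleGraph V) (φ : A → V) (τ : Set A) : 0 ≤ nb G φ τ := by
  unfold nb
  positivity

theorem nb_le_one {A V : Type} [Finite V] (G : SimpleGraph V) (φ : A → V) (τ : Set A) :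
    nb G φ τ ≤ 1 := by
  unfold nb
  apply div_le_one_of_le₀
  · exact_mod_cast Nat.card_le_card_of_injective _ Subtype.val_injective
  · positivity

theorem hd_jg {A J V : Type} [Finite A] [Fintype J] [Finite V] [Nonempty V] (B : SimpleGraph A)
    (N : J → Set A) (G : SimpleGraph V) [Fintype (Hm B G)] :
    hd (jg B N) G = (∑ φ : Hm B G, ∏ j : J, nb G φ.1 (N j)) / (Nat.card V : ℝ) ^ Nat.card A := by
  have hB : (jg B N).comap (Sum.inl : A → A ⊕ J) = B := by
    ext a b
    rfl
  have h1 : hc (jg B N) G = ∑ φ : Hm B G, ∏ j : J,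
      Nat.card {v : V // ∀ a, a ∈ N j → G.Adj (φ.1 a) v} := by
    exact @hc_sum A J V _ _ _ (jg B N) (fun i j h => h) G ‹Fintype (Hm B G)›
  unfold hd
  rw [h1, Nat.card_sum, pow_add]
  push_cast
  have hV := card_pos_real (V := V)
  have h2 : ∀ φ : Hm B G, ∏ j : J, nb G φ.1 (N j) =
      (∏ j : J, (Nat.card {v : V // ∀ a, a ∈ N j → G.Adj (φ.1 a) v} : ℝ)) /
        (Nat.card V : ℝ) ^ Nat.card J := by
    intro φ
    unfold nb
    rw [prod_div_distrib, prod_const, card_univ, Nat.card_eq_fintype_card (α := J)]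
  rw [sum_congr rfl (fun φ _ => h2 φ), ← sum_div, div_div]
  congr 1
  ring

/-- identification of the elements of `J` with equal neighbourhoods -/
theorem hd_types {A J J' V : Type} [Finite A] [Fintype J] [Fintype J'] [Finite V] [Nonempty V]
    (B : SimpleGraph A) (N' : J' → Set A) (ty : J → J') (hty : Function.Surjective ty) (k : ℕ)
    (hk : Fintype.card J ≤ k) (hk1 : 1 ≤ k) (G : SimpleGraph V) :
    hd (jg B (fun j => N' (ty j))) G ≤ hd (jg B N') G ∧
      hd (jg B N') G ^ k ≤ hd (jg B (fun j => N' (ty j))) G := by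
  classical
  have := Fintype.ofFinite (Hm B G)
  have hV := card_pos_real (V := V)
  obtain ⟨W, hW⟩ : ∃ W : ℝ, W = (Nat.card V : ℝ) ^ Nat.card A := ⟨_, rfl⟩
  have hW0 : 0 < W := by rw [hW]; positivity
  rw [hd_jg, hd_jg, ← hW]
  have hcomp : ∀ φ : Hm B G, ∏ j : J, nb G φ.1 (N' (ty j)) =
      ∏ τ : J', nb G φ.1 (N' τ) ^ #{j : J | ty j = τ} := by
    intro φ
    rw [prod_comp (fun τ => nb G φ.1 (N' τ)) ty, image_univ_of_surjective hty]
  have hm1 : ∀ τ : J', 1 ≤ #{j : J | ty j = τ} := by
    intro τ
    obtain ⟨j, hj⟩ := hty τ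
    rw [Nat.one_le_iff_ne_zero, Ne, card_eq_zero, ← Ne, ← nonempty_iff_ne_empty]
    exact ⟨j, by simp [hj]⟩
  have hmk : ∀ τ : J', #{j : J | ty j = τ} ≤ k := by
    intro τ
    refine le_trans (card_le_univ _) hk
  have hY0 : ∀ φ : Hm B G, 0 ≤ ∏ τ : J', nb G φ.1 (N' τ) :=
    fun φ => prod_nonneg (fun τ _ => nb_nonneg _ _ _)
  constructor
  · apply div_le_div_of_nonneg_right _ hW0.le
    apply sum_le_sum
    intro φ _
    rw [hcomp]
    apply prod_le_prod
    · intro τ _
      exact pow_nonneg (nb_nonneg _ _ _) _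
    · intro τ _
      exact pow_le_of_le_one (nb_nonneg _ _ _) (nb_le_one _ _ _) (by have := hm1 τ; omega)
  · obtain ⟨k, rfl⟩ : ∃ k', k = k' + 1 := ⟨k - 1, by omega⟩
    have h1 : ∀ φ : Hm B G, (∏ τ : J', nb G φ.1 (N' τ)) ^ (k + 1) ≤
        ∏ j : J, nb G φ.1 (N' (ty j)) := by
      intro φ
      rw [hcomp, ← prod_pow]
      apply prod_le_prod
      · intro τ _
        exact pow_nonneg (nb_nonneg _ _ _) _
      · intro τ _
        exact pow_le_pow_of_le_one (nb_nonneg _ _ _) (nb_le_one _ _ _) (hmk τ)
    have h2 : (∑ φ : Hm B G, ∏ τ : J', nb G φ.1 (N' τ)) ^ (k + 1) ≤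
        (Fintype.card (Hm B G) : ℝ) ^ k * ∑ φ : Hm B G, (∏ τ : J', nb G φ.1 (N' τ)) ^ (k + 1) := by
      have := pow_sum_le_card_mul_sum_pow (s := (univ : Finset (Hm B G)))
        (f := fun φ => ∏ τ : J', nb G φ.1 (N' τ)) (fun φ _ => hY0 φ) k
      rwa [card_univ] at this
    have h3 : (Fintype.card (Hm B G) : ℝ) ≤ W := by
      have h4 := hc_le B G
      unfold hc at h4
      rw [Nat.card_eq_fintype_card] at h4
      rw [hW]
      exact_mod_cast h4
    rw [div_pow, div_le_div_iff₀ (by positivity) hW0]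
    have h5 : 0 ≤ ∑ φ : Hm B G, (∏ τ : J', nb G φ.1 (N' τ)) ^ (k + 1) :=
      sum_nonneg (fun φ _ => pow_nonneg (hY0 φ) _)
    calc (∑ φ : Hm B G, ∏ τ : J', nb G φ.1 (N' τ)) ^ (k + 1) * W
        ≤ ((Fintype.card (Hm B G) : ℝ) ^ k *
          ∑ φ : Hm B G, (∏ τ : J', nb G φ.1 (N' τ)) ^ (k + 1)) * W := by gcongr
      _ ≤ (W ^ k * ∑ φ : Hm B G, ∏ j : J, nb G φ.1 (N' (ty j))) * W := by
          gcongr with φ _
          exact h1 φ
      _ = (∑ φ : Hm B G, ∏ j : J, nb G φ.1 (N' (ty j))) * W ^ (k + 1) := by ring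

/-- **Twin reduction.** -/
theorem twin {k : ℕ} (hk : 1 ≤ k) (F : SimpleGraph (Fin k)) (S : Finset (Fin k))
    (hS : ∀ a b, a ∉ S → b ∉ S → ¬ F.Adj a b) :
    ∃ (k' : ℕ) (F' : SimpleGraph (Fin k')), k' ≤ #S + 2 ^ #S ∧
      ∀ (V : Type) [Finite V] [Nonempty V] (G : SimpleGraph V),
        hd F G ≤ hd F' G ∧ hd F' G ^ k ≤ hd F G := by
  classical
  obtain ⟨B, hB⟩ : ∃ B : SimpleGraph {a // a ∈ S}, B = F.comap Subtype.val := ⟨_, rfl⟩
  let nbh : {a // ¬ a ∈ S} → Finset {a // a ∈ S} := fun j => univ.filter (fun a => F.Adj a.1 j.1)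
  let T : Finset (Finset {a // a ∈ S}) := univ.image nbh
  let N' : {τ // τ ∈ T} → Set {a // a ∈ S} := fun τ => {a | a ∈ τ.1}
  let ty : {a // ¬ a ∈ S} → {τ // τ ∈ T} := fun j => ⟨nbh j, mem_image_of_mem _ (mem_univ _)⟩
  have hty : Function.Surjective ty := by
    rintro ⟨τ, hτ⟩
    obtain ⟨j, _, rfl⟩ := mem_image.1 hτ
    exact ⟨j, rfl⟩
  have hJ : Fintype.card {a // ¬ a ∈ S} ≤ k := by
    refine (Fintype.card_subtype_le _).trans ?_
    rw [Fintype.card_fin]
  have hF : ∀ (V : Type) [Finite V] [Nonempty V] (G : SimpleGraph V),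
      hd F G = hd (jg B (fun j => N' (ty j))) G := by
    intro V _ _ G
    apply hd_equiv F _ (Equiv.sumCompl (fun a => a ∈ S)).symm
    intro a b
    by_cases ha : a ∈ S <;> by_cases hb : b ∈ S
    · rw [Equiv.sumCompl_symm_apply_of_pos ha, Equiv.sumCompl_symm_apply_of_pos hb]
      change _ ↔ B.Adj _ _
      rw [hB]
      rfl
    · rw [Equiv.sumCompl_symm_apply_of_pos ha, Equiv.sumCompl_symm_apply_of_neg hb]
      change _ ↔ _ ∈ N' (ty _)
      simp [N', ty, nbh]
    · rw [Equiv.sumCompl_symm_apply_of_neg ha, Equiv.sumCompl_symm_apply_of_pos hb]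
      change _ ↔ _ ∈ N' (ty _)
      simp [N', ty, nbh, F.adj_comm]
    · rw [Equiv.sumCompl_symm_apply_of_neg ha, Equiv.sumCompl_symm_apply_of_neg hb]
      change _ ↔ False
      simp only [iff_false]
      exact hS a b ha hb
  let e := Fintype.equivFin ({a // a ∈ S} ⊕ {τ // τ ∈ T})
  refine ⟨_, (jg B N').comap e.symm, ?_, ?_⟩
  · rw [Fintype.card_sum, Fintype.card_coe, Fintype.card_coe]
    have h1 : #T ≤ 2 ^ #S := by
      calc #T ≤ Fintype.card (Finset {a // a ∈ S}) := card_le_univ _
        _ = 2 ^ #S := by rw [Fintype.card_finset, Fintype.card_coe]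
    omega
  · intro V _ _ G
    have h1 : hd ((jg B N').comap e.symm) G = hd (jg B N') G := by
      apply hd_equiv _ _ e.symm
      intro a b
      rfl
    rw [h1, hF]
    exact hd_types B N' ty hty k hJ hk G

/-- either a large matching or a small vertex cover -/
theorem matching {k : ℕ} (F : SimpleGraph (Fin k)) (M : ℕ) :
    (∃ μ : Fin M × Bool → Fin k, Function.Injective μ ∧ ∀ x y, (mt M).Adj x y → F.Adj (μ x) (μ y)) ∨
      ∃ S : Finset (Fin k), #S ≤ 2 * M ∧ ∀ a b, a ∉ S → b ∉ S → ¬ F.Adj a b := by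
  classical
  induction M with
  | zero =>
    left
    exact ⟨fun x => x.1.elim0, fun x => x.1.elim0, fun x => x.1.elim0⟩
  | succ M ih =>
    rcases ih with ⟨μ, hμ, hadj⟩ | ⟨S, hS, hind⟩
    · by_cases h : ∀ a b, a ∉ univ.image μ → b ∉ univ.image μ → ¬ F.Adj a b
      · right
        refine ⟨univ.image μ, ?_, h⟩
        refine card_image_le.trans ?_
        rw [card_univ, Fintype.card_prod, Fintype.card_fin, Fintype.card_bool]
        omega
      · left
        push Not at h
        obtain ⟨a, b, ha, hb, hab⟩ := h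
        have ha' : ∀ x, μ x ≠ a := fun x hx => ha (mem_image.2 ⟨x, mem_univ _, hx⟩)
        have hb' : ∀ x, μ x ≠ b := fun x hx => hb (mem_image.2 ⟨x, mem_univ _, hx⟩)
        have hne : a ≠ b := hab.ne
        refine ⟨fun x => Fin.lastCases (if x.2 then b else a) (fun i => μ (i, x.2)) x.1, ?_, ?_⟩
        · rintro ⟨i, x⟩ ⟨j, y⟩ h
          induction i using Fin.lastCases with
          | last =>
            induction j using Fin.lastCases with
            | last =>
              simp only [Fin.lastCases_last] at h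
              cases x <;> cases y <;> simp_all
            | cast j =>
              simp only [Fin.lastCases_last, Fin.lastCases_castSucc] at h
              exfalso
              cases x
              · simp only [Bool.false_eq_true, if_false] at h
                exact ha' _ h.symm
              · simp only [if_true] at h
                exact hb' _ h.symm
          | cast i =>
            induction j using Fin.lastCases with
            | last =>
              simp only [Fin.lastCases_last, Fin.lastCases_castSucc] at h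
              exfalso
              cases y
              · simp only [Bool.false_eq_true, if_false] at h
                exact ha' _ h
              · simp only [if_true] at h
                exact hb' _ h
            | cast j =>
              simp only [Fin.lastCases_castSucc] at h
              have := hμ h
              simp only [Prod.mk.injEq] at this
              rw [this.1, this.2]
        · rintro ⟨i, x⟩ ⟨j, y⟩ ⟨h1, h2⟩
          simp only at h1 h2
          subst h1
          induction i using Fin.lastCases with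
          | last =>
            simp only [Fin.lastCases_last]
            cases x <;> cases y
            · exact absurd rfl h2
            · simpa using hab
            · simpa using hab.symm
            · exact absurd rfl h2
          | cast i =>
            simp only [Fin.lastCases_castSucc]
            exact hadj _ _ ⟨rfl, h2⟩
    · right
      exact ⟨S, by omega, hind⟩

end Pool.Agent.X286.Ab
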